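import Mathlib
import Pool.Agent.Lib.MP_2293c7_nt.Aff
import Pool.Agent.Lib.MP_2293c7_nt.Jacobi

set_option autoImplicit false

open Finset

namespace Pool.Agent.Results.MP_2293c7_nt.Supercongruence

open Pool.Agent.Lib.MP_2293c7_nt

/-- For every prime `p ≡ 1 mod 3` and integers `L, M` with `4p = L^2 + 27 M^2`, `L ≡ 2 mod 3`,
the numerator (in lowest terms) of `∑_{k<p} binom(-1/3,k)^2 9^k - (L - p/L)` is divisible by `p^2`.
Here `binom(a,k) = a (a-1) ... (a-k+1) / k!`. -/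
theorem result (p : ℕ) (hp : p.Prime) (h3 : p % 3 = 1) (L M : ℤ)
    (hLM : 4 * (p : ℤ) = L ^ 2 + 27 * M ^ 2) (hL : L % 3 = 2) :
    (p : ℤ) ^ 2 ∣
      ((∑ k ∈ Finset.range p,
          ((∏ i ∈ Finset.range k, ((-1 / 3 : ℚ) - (i : ℚ))) / (k.factorial : ℚ)) ^ 2 * 9 ^ k)
        - ((L : ℚ) - (p : ℚ) / (L : ℚ))).num := by
  have hterm : ∀ k : ℕ,
      ((∏ i ∈ Finset.range k, ((-1 / 3 : ℚ) - (i : ℚ))) / (k.factorial : ℚ)) ^ 2 * 9 ^ k = tm 0 k := by
    intro k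
    induction k with
    | zero => simp [tm]
    | succ k ih =>
      unfold tm at *
      rw [prod_range_succ, prod_range_succ, ← ih, Nat.factorial_succ]
      have h1 : (k : ℚ) + 1 ≠ 0 := by positivity
      have h2 : (k.factorial : ℚ) ≠ 0 := by positivity
      push_cast
      rw [sub_zero, mul_zero, sub_zero, sub_zero]
      field_simp
      ring
  have hS : ∑ k ∈ Finset.range p,
      ((∏ i ∈ Finset.range k, ((-1 / 3 : ℚ) - (i : ℚ))) / (k.factorial : ℚ)) ^ 2 * 9 ^ k = TT p 0 :=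
    sum_congr rfl fun k _ => hterm k
  rw [hS]
  have hodd : p % 2 = 1 := by
    rcases hp.eq_two_or_odd with h | h
    · omega
    · exact h
  obtain ⟨m, hm⟩ : ∃ m, p = 6 * m + 1 := ⟨p / 6, by omega⟩
  have h7 : 7 ≤ p := by
    have := hp.two_le
    omega
  obtain ⟨c, hc, e1⟩ := sum_congr_centralBinom (hp := hp) m hm
  obtain ⟨k, e2⟩ := centralBinom_congr p hp m hm L M hLM hL
  have hL0 : L ≠ 0 := by omega
  have hnd : ¬ (p : ℤ) ∣ L := by
    rintro ⟨t, rfl⟩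
    have ht : t ≠ 0 := by rintro rfl; simp at hL0
    have h1 : 1 ≤ t ^ 2 := by
      have := sq_pos_of_ne_zero ht
      omega
    have h7' : (7 : ℤ) ≤ p := by exact_mod_cast h7
    nlinarith [sq_nonneg M, mul_le_mul_of_nonneg_left h1 (sq_nonneg (p : ℤ))]
  have hi := inv_int_mem (hp := hp) L hnd
  have hL0' : (L : ℚ) ≠ 0 := by exact_mod_cast hL0
  have e2' : (L : ℚ) * ((2 * m).centralBinom : ℚ) - ((L : ℚ) ^ 2 - p) = (p : ℚ) ^ 2 * k := by
    exact_mod_cast e2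
  refine num_dvd (hp := hp) (c := c + k * (L : ℚ)⁻¹) (add_mem hc (mul_mem (intCast_mem _ k) hi)) ?_
  have t := mul_inv_cancel₀ hL0'
  rw [div_eq_mul_inv]
  linear_combination e1 + (L : ℚ)⁻¹ * e2' - (((2 * m).centralBinom : ℚ) - L) * t

end Pool.Agent.Results.MP_2293c7_nt.Supercongruence
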